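import Mathlib.GroupTheory.Congruence.Basic
import Mathlib.Order.Hom.Lattice
import Mathlib.Algebra.Group.Subgroup.Basic
import Mathlib.Algebra.Group.Prod
import Mathlib.Tactic.Group

/-!
# Congruences of a product of two abelian subgroups
-/

set_option autoImplicit false

namespace Pool.Agent.CGA

universe u

section comp
variable {G : Type u} [Group G]

/-- the composition of two congruences of a group -/
def compCon (c d : Con G) : Con G where
  r x y := ∃ z, c x z ∧ d z y
  iseqv :=
    { refl := fun x => ⟨x, c.refl x, d.refl x⟩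
      symm := by
        rintro x y ⟨z, h1, h2⟩
        refine ⟨y * z⁻¹ * x, ?_, ?_⟩
        · have h3 := c.mul (c.refl (y * z⁻¹)) (c.symm h1)
          rwa [inv_mul_cancel_right] at h3
        · have h3 := d.mul (d.symm h2) (d.refl (z⁻¹ * x))
          rwa [mul_inv_cancel_left, ← mul_assoc] at h3
      trans := by
        rintro x y v ⟨z, h1, h2⟩ ⟨w, h3, h4⟩
        refine ⟨z * y⁻¹ * w, c.trans h1 ?_, d.trans ?_ h4⟩
        · have h5 := c.mul (c.refl (z * y⁻¹)) h3
          rwa [inv_mul_cancel_right] at h5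
        · have h5 := d.mul h2 (d.refl (y⁻¹ * w))
          rwa [mul_inv_cancel_left, ← mul_assoc] at h5 }
  mul' := by
    rintro x y v w ⟨z, h1, h2⟩ ⟨z', h3, h4⟩
    exact ⟨z * z', c.mul h1 h3, d.mul h2 h4⟩

/-- congruences of groups permute: the join is the composition -/
theorem sup_iff (c d : Con G) (x y : G) : (c ⊔ d) x y ↔ ∃ z, c x z ∧ d z y := by
  have h : c ⊔ d = compCon c d := by
    apply le_antisymm
    · refine sup_le ?_ ?_
      · intro x y h
        exact ⟨y, h, d.refl y⟩
      · intro x y h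
        exact ⟨x, c.refl x, h⟩
    · rintro x y ⟨z, h1, h2⟩
      exact (c ⊔ d).trans ((le_sup_left : c ≤ c ⊔ d) h1) ((le_sup_right : d ≤ c ⊔ d) h2)
  rw [h]
  rfl

end comp

variable {G : Type u} [Group G]

/-- the pullback of a congruence of `G` along the map `(a, q) ↦ a q` is a congruence of the direct
product of the abelian subgroups `A` and `Q` -/
def pull (A Q : Subgroup G) (hA : ∀ x ∈ A, ∀ y ∈ A, x * y = y * x)
    (hQ : ∀ x ∈ Q, ∀ y ∈ Q, x * y = y * x) (c : Con G) : Con (A × Q) where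
  r u v := c (u.1 * u.2) (v.1 * v.2)
  iseqv := ⟨fun _ => c.refl _, fun h => c.symm h, fun h1 h2 => c.trans h1 h2⟩
  mul' := by
    rintro ⟨a, q⟩ ⟨a', q'⟩ ⟨b, s⟩ ⟨b', s'⟩ h1 h2
    obtain ⟨a, ha⟩ := a
    obtain ⟨a', ha'⟩ := a'
    obtain ⟨b, hb⟩ := b
    obtain ⟨b', hb'⟩ := b'
    obtain ⟨q, hq⟩ := q
    obtain ⟨q', hq'⟩ := q'
    obtain ⟨s, hs⟩ := s
    obtain ⟨s', hs'⟩ := s'
    change c (a * q) (a' * q') at h1
    change c (b * s) (b' * s') at h2
    change c (a * b * (q * s)) (a' * b' * (q' * s'))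
    have e1 : a * b * (q * s) = b * (a * q) * s := by
      rw [hA a ha b hb]
      group
    have e2 : b * (a' * q') * s = a' * (b * s) * q' := by
      have e3 : q' * s = s * q' := hQ q' hq' s hs
      have e4 : b * a' = a' * b := hA b hb a' ha'
      calc b * (a' * q') * s = (b * a') * (q' * s) := by group
        _ = (a' * b) * (s * q') := by rw [e3, e4]
        _ = a' * (b * s) * q' := by group
    have e5 : a' * (b' * s') * q' = a' * b' * (q' * s') := by
      rw [hQ q' hq' s' hs']
      group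
    rw [e1, ← e5]
    refine c.trans (c.mul (c.mul (c.refl b) h1) (c.refl s)) ?_
    rw [e2]
    exact c.mul (c.mul (c.refl a') h2) (c.refl q')

/-- **the congruence lattice of a product of two abelian subgroups embeds into the congruence
lattice of the direct product of these subgroups** -/
theorem embed (A Q : Subgroup G) (hA : ∀ x ∈ A, ∀ y ∈ A, x * y = y * x)
    (hQ : ∀ x ∈ Q, ∀ y ∈ Q, x * y = y * x) (h : ∀ g : G, ∃ a ∈ A, ∃ q ∈ Q, a * q = g) :
    ∃ f : LatticeHom (Con G) (Con (A × Q)), Function.Injective f := by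
  have hs : ∀ g : G, ∃ u : A × Q, (u.1 : G) * u.2 = g := by
    intro g
    obtain ⟨a, ha, q, hq, e⟩ := h g
    exact ⟨(⟨a, ha⟩, ⟨q, hq⟩), e⟩
  refine ⟨⟨⟨pull A Q hA hQ, ?_⟩, ?_⟩, ?_⟩
  · intro c d
    refine Con.ext fun u v => ?_
    constructor
    · intro h1
      have h1' : (c ⊔ d) (u.1 * u.2) (v.1 * v.2) := h1
      rw [sup_iff] at h1'
      obtain ⟨z, h2, h3⟩ := h1'
      obtain ⟨w, rfl⟩ := hs z
      rw [sup_iff]
      exact ⟨w, h2, h3⟩
    · intro h1
      rw [sup_iff] at h1
      obtain ⟨w, h2, h3⟩ := h1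
      have h4 : (c ⊔ d) (u.1 * u.2) (v.1 * v.2) := by
        rw [sup_iff]
        exact ⟨w.1 * w.2, h2, h3⟩
      exact h4
  · intro c d
    refine Con.ext fun u v => ?_
    rw [Con.inf_iff_and]
    exact Con.inf_iff_and
  · intro c d hcd
    have hcd' : pull A Q hA hQ c = pull A Q hA hQ d := hcd
    refine Con.ext fun x y => ?_
    obtain ⟨u, rfl⟩ := hs x
    obtain ⟨v, rfl⟩ := hs y
    have h1 : pull A Q hA hQ c u v ↔ pull A Q hA hQ d u v := by rw [hcd']
    exact h1

end Pool.Agent.CGA
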