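import Mathlib

set_option autoImplicit false

/-!
# MP_944de5_al: groups of order `p ^ k`, `k ≤ 4`, are products of two abelian subgroups
-/

namespace Pool.Agent.CGA

universe u

/-- commutator with `x`, where `x` is central modulo the centre -/
def p4hom {P : Type u} [Group P] (x : P) (hx : ∀ g : P, g * x * g⁻¹ * x⁻¹ ∈ Subgroup.center P) :
    P →* Subgroup.center P where
  toFun g := ⟨g * x * g⁻¹ * x⁻¹, hx g⟩
  map_one' := by
    apply Subtype.ext
    simp
  map_mul' g h := by
    apply Subtype.ext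
    change g * h * x * (g * h)⁻¹ * x⁻¹ = (g * x * g⁻¹ * x⁻¹) * (h * x * h⁻¹ * x⁻¹)
    have h1 : ∀ w : P, (h * x * h⁻¹ * x⁻¹) * w = w * (h * x * h⁻¹ * x⁻¹) := fun w =>
      (Subgroup.mem_center_iff.1 (hx h) w).symm
    calc g * h * x * (g * h)⁻¹ * x⁻¹ = g * ((h * x * h⁻¹ * x⁻¹) * (x * g⁻¹)) * x⁻¹ := by group
      _ = g * ((x * g⁻¹) * (h * x * h⁻¹ * x⁻¹)) * x⁻¹ := by rw [h1]
      _ = (g * x * g⁻¹) * ((h * x * h⁻¹ * x⁻¹) * x⁻¹) := by group
      _ = (g * x * g⁻¹) * (x⁻¹ * (h * x * h⁻¹ * x⁻¹)) := by rw [h1]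
      _ = _ := by group

theorem p4ker {P : Type u} [Group P] (x : P)
    (hx : ∀ g : P, g * x * g⁻¹ * x⁻¹ ∈ Subgroup.center P) (g : P) :
    g ∈ (p4hom x hx).ker ↔ g * x = x * g := by
  rw [MonoidHom.mem_ker]
  constructor
  · intro h
    have h1 : g * x * g⁻¹ * x⁻¹ = 1 := congrArg Subtype.val h
    calc g * x = (g * x * g⁻¹ * x⁻¹) * (x * g) := by group
      _ = x * g := by rw [h1, one_mul]
  · intro h
    apply Subtype.ext
    change g * x * g⁻¹ * x⁻¹ = 1
    rw [h]
    group

theorem p4 {p : ℕ} [Fact p.Prime] {P : Type u} [Group P] (k : ℕ) (hk : k ≤ 4)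
    (hP : Nat.card P = p ^ k) : ∃ A Q : Subgroup P, (∀ x ∈ A, ∀ y ∈ A, x * y = y * x) ∧
      (∀ x ∈ Q, ∀ y ∈ Q, x * y = y * x) ∧ ∀ g : P, ∃ a ∈ A, ∃ q ∈ Q, a * q = g := by
  have hp : p.Prime := Fact.out
  have hp1 : 1 < p := hp.one_lt
  have hfin : Finite P := Nat.finite_of_card_ne_zero (by rw [hP]; exact pow_ne_zero _ hp.ne_zero)
  by_cases hab : ∀ x y : P, x * y = y * x
  · exact ⟨⊤, ⊤, fun x _ y _ => hab x y, fun x _ y _ => hab x y,
      fun g => ⟨g, trivial, 1, trivial, mul_one g⟩⟩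
  -- the centre
  obtain ⟨Z, hZ⟩ : ∃ Z : Subgroup P, Z = Subgroup.center P := ⟨_, rfl⟩
  have hpg : IsPGroup p P := IsPGroup.of_card hP
  obtain ⟨z, hz⟩ : ∃ z : ℕ, Nat.card (Subgroup.center P) = p ^ z :=
    (IsPGroup.iff_card.1 (hpg.to_subgroup _))
  have hZtop : Subgroup.center P ≠ ⊤ := by
    intro h
    apply hab
    intro x y
    have : x ∈ Subgroup.center P := by rw [h]; trivial
    exact (Subgroup.mem_center_iff.1 this y).symm
  -- an element which is central modulo the centre
  have : Nontrivial (P ⧸ Subgroup.center P) := by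
    rw [← not_subsingleton_iff_nontrivial]
    intro h
    exact hZtop (QuotientGroup.subsingleton_iff.1 h)
  have hq : IsPGroup p (P ⧸ Subgroup.center P) := hpg.to_quotient _
  have := hq.center_nontrivial
  obtain ⟨⟨y, hyc⟩, hy1⟩ := exists_ne (1 : Subgroup.center (P ⧸ Subgroup.center P))
  obtain ⟨x, rfl⟩ := QuotientGroup.mk_surjective y
  have hxZ : x ∉ Subgroup.center P := by
    intro h
    apply hy1
    apply Subtype.ext
    exact (QuotientGroup.eq_one_iff x).2 h
  have hx : ∀ g : P, g * x * g⁻¹ * x⁻¹ ∈ Subgroup.center P := by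
    intro g
    rw [← QuotientGroup.eq_one_iff]
    have h1 := Subgroup.mem_center_iff.1 hyc (g : P ⧸ Subgroup.center P)
    have h2 : ((g * x * g⁻¹ * x⁻¹ : P) : P ⧸ Subgroup.center P) =
        (g : P ⧸ Subgroup.center P) * x * (g : P ⧸ Subgroup.center P)⁻¹ *
          (x : P ⧸ Subgroup.center P)⁻¹ := rfl
    rw [h2, h1]
    group
  obtain ⟨C, hC⟩ : ∃ C : Subgroup P, C = (p4hom x hx).ker := ⟨_, rfl⟩
  have hmem : ∀ g, g ∈ C ↔ g * x = x * g := fun g => by rw [hC]; exact p4ker x hx g
  obtain ⟨c, hc⟩ : ∃ c : ℕ, Nat.card C = p ^ c := (IsPGroup.iff_card.1 (hpg.to_subgroup C))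
  -- index of `C`
  have hidx : C.index ∣ p ^ z := by
    rw [hC, Subgroup.index_ker, ← hz]
    exact Subgroup.card_subgroup_dvd_card _
  have hci : p ^ c * C.index = p ^ k := by
    rw [← hc, ← hP]
    exact C.card_mul_index
  have hckz : k ≤ c + z := by
    have h1 : p ^ k ∣ p ^ (c + z) := by
      rw [← hci, pow_add]
      exact mul_dvd_mul_left _ hidx
    exact (Nat.pow_dvd_pow_iff_le_right hp1).1 h1
  have hCtop : C ≠ ⊤ := by
    intro h
    apply hxZ
    rw [Subgroup.mem_center_iff]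
    intro g
    exact (hmem g).1 (by rw [h]; trivial)
  have hck : c < k := by
    rcases Nat.lt_or_ge c k with h | h
    · exact h
    · exfalso
      apply hCtop
      apply Subgroup.eq_top_of_card_eq
      have h1 : Nat.card C ∣ Nat.card P := Subgroup.card_subgroup_dvd_card C
      rw [hc, hP] at h1 ⊢
      have h2 := (Nat.pow_dvd_pow_iff_le_right hp1).1 h1
      have : c = k := le_antisymm h2 h
      rw [this]
  -- the centre of `C`
  obtain ⟨z', hz'⟩ : ∃ z' : ℕ, Nat.card (Subgroup.center C) = p ^ z' :=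
    (IsPGroup.iff_card.1 ((hpg.to_subgroup C).to_subgroup _))
  have hxC : x ∈ C := (hmem x).2 rfl
  have hZC : Subgroup.center P ≤ C := fun g hg => (hmem g).2 (Subgroup.mem_center_iff.1 hg x).symm
  have hzz : z < z' := by
    have h1 : Subgroup.center P < (Subgroup.center C).map C.subtype := by
      refine lt_of_le_of_ne ?_ ?_
      · intro g hg
        refine ⟨⟨g, hZC hg⟩, ?_, rfl⟩
        rw [SetLike.mem_coe, Subgroup.mem_center_iff]
        intro w
        apply Subtype.ext
        exact Subgroup.mem_center_iff.1 hg w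
      · intro h
        apply hxZ
        rw [h]
        refine ⟨⟨x, hxC⟩, ?_, rfl⟩
        rw [SetLike.mem_coe, Subgroup.mem_center_iff]
        intro w
        apply Subtype.ext
        exact (hmem w).1 w.2
    have h2 : Nat.card (Subgroup.center P) < Nat.card ((Subgroup.center C).map C.subtype) := by
      refine lt_of_le_of_ne (Nat.card_mono (Set.toFinite _) h1.le) ?_
      intro h
      exact h1.ne (Subgroup.eq_of_le_of_card_ge h1.le h.ge)
    rw [Subgroup.card_map_of_injective C.subtype_injective, hz, hz'] at h2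
    exact (Nat.pow_lt_pow_iff_right hp1).1 h2
  have hz'c : z' ≤ c := by
    have h1 : Nat.card (Subgroup.center C) ∣ Nat.card C := Subgroup.card_subgroup_dvd_card _
    rw [hz', hc] at h1
    exact (Nat.pow_dvd_pow_iff_le_right hp1).1 h1
  have hz1 : 1 ≤ z := by
    have : Nontrivial P := by
      by_contra h
      rw [not_nontrivial_iff_subsingleton] at h
      exact hab fun x y => Subsingleton.elim _ _
    have := hpg.center_nontrivial
    rcases Nat.eq_zero_or_pos z with h | h
    · exfalso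
      rw [h, pow_zero] at hz
      have h2 := (Nat.card_eq_one_iff_unique.1 hz).1
      exact not_subsingleton (Subgroup.center P) h2
    · exact h
  have hcomm : ∀ a ∈ C, ∀ b ∈ C, a * b = b * a := by
    have : IsCyclic (C ⧸ Subgroup.center C) := by
      have h1 : Nat.card (C ⧸ Subgroup.center C) * p ^ z' = p ^ c := by
        rw [← hz', ← hc]
        exact (Subgroup.card_eq_card_quotient_mul_card_subgroup _).symm
      rcases Nat.lt_or_ge z' c with h | h
      · have h2 : c = z' + 1 := by omega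
        have h3 : Nat.card (C ⧸ Subgroup.center C) = p := by
          rw [h2, pow_succ, mul_comm (p ^ z') p] at h1
          exact Nat.eq_of_mul_eq_mul_right (pow_pos hp.pos _) h1
        exact isCyclic_of_prime_card h3
      · have h2 : c = z' := le_antisymm h hz'c
        have h3 : Nat.card (C ⧸ Subgroup.center C) = 1 := by
          rw [h2] at h1
          exact Nat.eq_of_mul_eq_mul_right (pow_pos hp.pos z') (by rw [h1, one_mul])
        have := (Nat.card_eq_one_iff_unique.1 h3).1
        exact isCyclic_of_subsingleton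
    intro a ha b hb
    have h0 := MonoidHom.isMulCommutative_of_isCyclic_of_ker_le_center
      (QuotientGroup.mk' (Subgroup.center C)) (by rw [QuotientGroup.ker_mk'])
    have h1 := h0.is_comm.comm (⟨a, ha⟩ : C) ⟨b, hb⟩
    exact congrArg Subtype.val h1
  have hck1 : k = c + 1 := by omega
  have hindex : C.index = p := by
    rw [hck1, pow_succ] at hci
    exact Nat.eq_of_mul_eq_mul_left (pow_pos hp.pos c) hci
  have hnorm : C.Normal := by
    rw [hC]
    infer_instance
  obtain ⟨g, hg⟩ : ∃ g : P, g ∉ C := by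
    by_contra h
    push Not at h
    exact hCtop (eq_top_iff.2 fun g _ => h g)
  refine ⟨C, Subgroup.zpowers g, hcomm, ?_, ?_⟩
  · rintro a ⟨i, rfl⟩ b ⟨j, rfl⟩
    change g ^ i * g ^ j = g ^ j * g ^ i
    rw [← zpow_add, ← zpow_add, add_comm]
  · intro w
    have hcardq : Nat.card (P ⧸ C) = p := hindex
    have hg1 : (g : P ⧸ C) ≠ 1 := fun h => hg ((QuotientGroup.eq_one_iff g).1 h)
    have htop := zpowers_eq_top_of_prime_card hcardq hg1
    have hw : (w : P ⧸ C) ∈ Subgroup.zpowers (g : P ⧸ C) := by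
      rw [htop]
      trivial
    obtain ⟨i, hi⟩ := hw
    refine ⟨w * (g ^ i)⁻¹, ?_, g ^ i, ⟨i, rfl⟩, by rw [inv_mul_cancel_right]⟩
    rw [← QuotientGroup.eq_one_iff]
    have h2 : ((w * (g ^ i)⁻¹ : P) : P ⧸ C) = (w : P ⧸ C) * ((g : P ⧸ C) ^ i)⁻¹ := rfl
    rw [h2, ← hi]
    exact mul_inv_cancel _

end Pool.Agent.CGA
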