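import Mathlib

/-!
# Normal subgroups and Sylow subgroups
-/

set_option autoImplicit false

universe u

namespace Pool.Agent.CGA

theorem card_sup_inf {G : Type u} [Group G] (K M : Subgroup G) [M.Normal] :
    Nat.card (K ⊔ M : Subgroup G) * Nat.card (K ⊓ M : Subgroup G) = Nat.card K * Nat.card M := by
  have h1 : Nat.card M * M.relIndex (K ⊔ M) = Nat.card (K ⊔ M : Subgroup G) := by
    rw [← Subgroup.relIndex_bot_left M, ← Subgroup.relIndex_bot_left (K ⊔ M)]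
    exact Subgroup.relIndex_mul_relIndex ⊥ M (K ⊔ M) bot_le le_sup_right
  have h2 : Nat.card (K ⊓ M : Subgroup G) * M.relIndex K = Nat.card K := by
    rw [← Subgroup.inf_relIndex_left K M, ← Subgroup.relIndex_bot_left (K ⊓ M),
      ← Subgroup.relIndex_bot_left K]
    exact Subgroup.relIndex_mul_relIndex ⊥ (K ⊓ M) K bot_le inf_le_left
  rw [Subgroup.relIndex_sup_right] at h1
  rw [← h1, ← h2]
  ring

theorem pow_uniq {p x y c d : ℕ} (hp : p.Prime) (hc : ¬ p ∣ c) (hd : ¬ p ∣ d)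
    (h : p ^ x * c = p ^ y * d) : x = y := by
  have key : ∀ x y c d : ℕ, ¬ p ∣ c → p ^ x * c = p ^ y * d → ¬ x < y := by
    intro x y c d hc h hxy
    obtain ⟨e, rfl⟩ := Nat.exists_eq_add_of_lt hxy
    have h1 : p ^ x * c = p ^ x * (p ^ (e + 1) * d) := by
      rw [h]
      ring
    have h2 : c = p ^ (e + 1) * d := Nat.eq_of_mul_eq_mul_left (pow_pos hp.pos x) h1
    apply hc
    rw [h2, pow_succ', mul_assoc]
    exact dvd_mul_right _ _
  rcases lt_trichotomy x y with h1 | h1 | h1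
  · exact absurd h1 (key x y c d hc h)
  · exact h1
  · exact absurd h1 (key y x d c hd h.symm)

theorem pdecomp {G : Type u} [Group G] [Finite G] {p : ℕ} [hp : Fact p.Prime] (P : Sylow p G)
    (N : Subgroup G) [N.Normal] : ∃ k b : ℕ,
      Nat.card ((P : Subgroup G) ⊓ N : Subgroup G) = p ^ k ∧ ¬ p ∣ b ∧ Nat.card N = p ^ k * b := by
  have h1 : IsPGroup p ((P : Subgroup G) ⊓ N : Subgroup G) := P.isPGroup'.to_le inf_le_left
  obtain ⟨k, hk⟩ := IsPGroup.iff_card.1 h1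
  obtain ⟨b, hb⟩ : Nat.card ((P : Subgroup G) ⊓ N : Subgroup G) ∣ Nat.card N :=
    Subgroup.card_dvd_of_le inf_le_right
  refine ⟨k, b, hk, ?_, by rw [← hk]; exact hb⟩
  have h2 := card_sup_inf (P : Subgroup G) N
  have ha : 0 < Nat.card ((P : Subgroup G) ⊓ N : Subgroup G) := Nat.card_pos
  have h3 : Nat.card ((P : Subgroup G) ⊔ N : Subgroup G) = Nat.card (P : Subgroup G) * b := by
    apply Nat.eq_of_mul_eq_mul_right ha
    rw [h2, hb]
    ring
  have h4 : Nat.card ((P : Subgroup G) ⊔ N : Subgroup G) ∣ Nat.card G :=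
    Subgroup.card_subgroup_dvd_card _
  rw [h3, ← Subgroup.card_mul_index (P : Subgroup G)] at h4
  have h5 : b ∣ (P : Subgroup G).index := Nat.dvd_of_mul_dvd_mul_left Nat.card_pos h4
  exact fun h => P.not_dvd_index (h.trans h5)

theorem card_inf_sup {G : Type u} [Group G] [Finite G] {p : ℕ} [hp : Fact p.Prime]
    (P : Sylow p G) (N M : Subgroup G) [N.Normal] [M.Normal] :
    Nat.card ((P : Subgroup G) ⊓ (N ⊔ M) : Subgroup G) *
      Nat.card ((P : Subgroup G) ⊓ (N ⊓ M) : Subgroup G) =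
    Nat.card ((P : Subgroup G) ⊓ N : Subgroup G) * Nat.card ((P : Subgroup G) ⊓ M : Subgroup G) := by
  obtain ⟨k1, b1, e1, f1, g1⟩ := pdecomp P (N ⊔ M)
  obtain ⟨k2, b2, e2, f2, g2⟩ := pdecomp P (N ⊓ M)
  obtain ⟨k3, b3, e3, f3, g3⟩ := pdecomp P N
  obtain ⟨k4, b4, e4, f4, g4⟩ := pdecomp P M
  have h := card_sup_inf N M
  rw [g1, g2, g3, g4] at h
  have h' : p ^ (k1 + k2) * (b1 * b2) = p ^ (k3 + k4) * (b3 * b4) := by
    rw [pow_add, pow_add]
    linarith
  have h1 : ¬ p ∣ b1 * b2 := fun h => (hp.out.dvd_mul.1 h).elim f1 f2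
  have h2 : ¬ p ∣ b3 * b4 := fun h => (hp.out.dvd_mul.1 h).elim f3 f4
  rw [e1, e2, e3, e4, ← pow_add, ← pow_add, pow_uniq hp.out h1 h2 h']

/-- the intersection with a Sylow subgroup commutes with joins of normal subgroups -/
theorem syl_sup {G : Type u} [Group G] [Finite G] {p : ℕ} [Fact p.Prime] (P : Sylow p G)
    (N M : Subgroup G) [N.Normal] [M.Normal] (x : G) (hx : x ∈ P) (hNM : x ∈ N ⊔ M) :
    ∃ n ∈ N, ∃ m ∈ M, n ∈ P ∧ m ∈ P ∧ n * m = x := by
  have hle : ((P : Subgroup G) ⊓ N) ⊔ M ≤ ((P : Subgroup G) ⊓ (N ⊔ M)) ⊔ M :=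
    sup_le_sup_right (inf_le_inf_left _ le_sup_left) M
  have h1 := card_sup_inf ((P : Subgroup G) ⊓ N) M
  have h2 := card_sup_inf ((P : Subgroup G) ⊓ (N ⊔ M)) M
  have e1 : ((P : Subgroup G) ⊓ N) ⊓ M = (P : Subgroup G) ⊓ (N ⊓ M) := inf_assoc _ _ _
  have e2 : ((P : Subgroup G) ⊓ (N ⊔ M)) ⊓ M = (P : Subgroup G) ⊓ M := by
    rw [inf_assoc, inf_eq_right.2 (le_sup_right : M ≤ N ⊔ M)]
  rw [e1] at h1
  rw [e2] at h2
  have h3 := card_inf_sup P N M
  have p1 : 0 < Nat.card ((P : Subgroup G) ⊓ (N ⊓ M) : Subgroup G) := Nat.card_pos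
  have p2 : 0 < Nat.card ((P : Subgroup G) ⊓ M : Subgroup G) := Nat.card_pos
  have hcard : Nat.card (((P : Subgroup G) ⊓ (N ⊔ M)) ⊔ M : Subgroup G) =
      Nat.card (((P : Subgroup G) ⊓ N) ⊔ M : Subgroup G) := by
    apply Nat.eq_of_mul_eq_mul_right (Nat.mul_pos p1 p2)
    calc _ = (Nat.card (((P : Subgroup G) ⊓ (N ⊔ M)) ⊔ M : Subgroup G) *
          Nat.card ((P : Subgroup G) ⊓ M : Subgroup G)) *
          Nat.card ((P : Subgroup G) ⊓ (N ⊓ M) : Subgroup G) := by ring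
      _ = (Nat.card ((P : Subgroup G) ⊓ (N ⊔ M) : Subgroup G) *
          Nat.card ((P : Subgroup G) ⊓ (N ⊓ M) : Subgroup G)) * Nat.card M := by
          rw [h2]
          ring
      _ = (Nat.card ((P : Subgroup G) ⊓ N : Subgroup G) * Nat.card M) *
          Nat.card ((P : Subgroup G) ⊓ M : Subgroup G) := by
          rw [h3]
          ring
      _ = _ := by
          rw [← h1]
          ring
  have heq := Subgroup.eq_of_le_of_card_ge hle hcard.le
  have hx' : x ∈ ((P : Subgroup G) ⊓ N) ⊔ M := by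
    rw [heq]
    exact Subgroup.mem_sup_left ⟨hx, hNM⟩
  obtain ⟨n, hn, m, hm, hnm⟩ := Subgroup.mem_sup_of_normal_right.1 hx'
  refine ⟨n, hn.2, m, hm, hn.1, ?_, hnm⟩
  have hm' : m = n⁻¹ * x := by
    rw [← hnm]
    group
  rw [hm']
  exact mul_mem (inv_mem hn.1) hx

theorem syl_le {G : Type u} [Group G] [Finite G] (P : ∀ p : Nat.Primes, Sylow (p : ℕ) G)
    (N M : Subgroup G) [N.Normal]
    (h : ∀ (p : Nat.Primes) (x : G), x ∈ P p → x ∈ N → x ∈ M) : N ≤ M := by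
  have hdvd : Nat.card N ∣ Nat.card (N ⊓ M : Subgroup G) := by
    rw [Nat.dvd_iff_prime_pow_dvd_dvd]
    intro p k hp hk
    have : Fact p.Prime := ⟨hp⟩
    obtain ⟨j, b, e, f, g⟩ := pdecomp (P ⟨p, hp⟩) N
    rw [g] at hk
    have hco : Nat.Coprime (p ^ k) b := Nat.Coprime.pow_left k ((Nat.Prime.coprime_iff_not_dvd hp).2 f)
    have h1 : p ^ k ∣ p ^ j := hco.dvd_of_dvd_mul_right hk
    refine h1.trans ?_
    have h2 : ((P ⟨p, hp⟩ : Sylow p G) : Subgroup G) ⊓ N ≤ N ⊓ M :=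
      fun x hx => ⟨hx.2, h ⟨p, hp⟩ x hx.1 hx.2⟩
    have h3 := Subgroup.card_dvd_of_le h2
    rw [e] at h3
    exact h3
  have h4 : N ⊓ M = N := Subgroup.eq_of_le_of_card_ge inf_le_left
    (Nat.le_of_dvd Nat.card_pos hdvd)
  exact inf_eq_left.1 h4

/-- a normal subgroup of a finite group is determined by its intersections with the Sylow
subgroups -/
theorem syl_inj {G : Type u} [Group G] [Finite G] (P : ∀ p : Nat.Primes, Sylow (p : ℕ) G)
    (N M : Subgroup G) [N.Normal] [M.Normal]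
    (h : ∀ (p : Nat.Primes) (x : G), x ∈ P p → (x ∈ N ↔ x ∈ M)) : N = M :=
  le_antisymm (syl_le P N M fun p x hx hN => (h p x hx).1 hN)
    (syl_le P M N fun p x hx hM => (h p x hx).2 hM)

end Pool.Agent.CGA
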