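import Pool.Agent.CGA.AQ
import Pool.Agent.CGA.Syl
import Pool.Agent.CGA.P4

/-!
# Congruences of finite groups whose Sylow subgroups are products of two abelian subgroups
-/

set_option autoImplicit false

namespace Pool.Agent.CGA

universe u

variable {G : Type u} [Group G]

/-- the normal subgroup of a congruence -/
def nsub (c : Con G) : Subgroup G where
  carrier := {x | c x 1}
  mul_mem' := by
    intro a b h1 h2
    have h3 := c.mul h1 h2
    rwa [mul_one] at h3
  one_mem' := c.refl 1
  inv_mem' := by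
    intro x h
    have h3 := c.mul (c.refl x⁻¹) (c.symm h)
    rwa [mul_one, inv_mul_cancel] at h3

theorem mem_nsub (c : Con G) (x : G) : x ∈ nsub c ↔ c x 1 := Iff.rfl

instance (c : Con G) : (nsub c).Normal where
  conj_mem := by
    intro n hn g
    have h3 := c.mul (c.mul (c.refl g) hn) (c.refl g⁻¹)
    rwa [mul_one, mul_inv_cancel] at h3

theorem rel_iff (c : Con G) (x y : G) : c x y ↔ x⁻¹ * y ∈ nsub c := by
  rw [mem_nsub]
  constructor
  · intro h
    have h3 := c.mul (c.refl x⁻¹) (c.symm h)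
    rwa [inv_mul_cancel] at h3
  · intro h
    have h3 := c.mul (c.refl x) h
    rw [mul_inv_cancel_left, mul_one] at h3
    exact c.symm h3

theorem nsub_sup (c d : Con G) (x : G) (hx : x ∈ nsub (c ⊔ d)) : x ∈ nsub c ⊔ nsub d := by
  rw [mem_nsub, sup_iff] at hx
  obtain ⟨z, h1, h2⟩ := hx
  rw [rel_iff] at h1
  rw [← mem_nsub] at h2
  have h3 : x = (x⁻¹ * z)⁻¹⁻¹ * 1 * (x⁻¹ * z)⁻¹ * x := by group
  have h4 : x = z * (x⁻¹ * z)⁻¹ := by group
  rw [h4]
  exact mul_mem (Subgroup.mem_sup_right h2) (Subgroup.mem_sup_left (inv_mem h1))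

/-- `P` is the image of an abelian group `B` under a map `π`, not a homomorphism in general, such
that the pullback of every congruence of `P` is a congruence of `B` -/
def Abl (P : Type u) [Group P] : Prop :=
  ∃ (B : Type u) (_ : CommGroup B) (π : B → P), Function.Surjective π ∧
    ∀ (c : Con P) (x y z w : B), c (π x) (π y) → c (π z) (π w) → c (π (x * z)) (π (y * w))

/-- products of two abelian subgroups have this property -/
theorem abl_of_prod {P : Type u} [Group P] (A Q : Subgroup P)
    (hA : ∀ x ∈ A, ∀ y ∈ A, x * y = y * x) (hQ : ∀ x ∈ Q, ∀ y ∈ Q, x * y = y * x)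
    (h : ∀ g : P, ∃ a ∈ A, ∃ q ∈ Q, a * q = g) : Abl P := by
  refine ⟨A × Q, { (inferInstance : Group (A × Q)) with
    mul_comm := fun u v => Prod.ext (Subtype.ext (hA _ u.1.2 _ v.1.2))
      (Subtype.ext (hQ _ u.2.2 _ v.2.2)) }, fun u => u.1 * u.2, ?_, ?_⟩
  · intro g
    obtain ⟨a, ha, q, hq, e⟩ := h g
    exact ⟨(⟨a, ha⟩, ⟨q, hq⟩), e⟩
  · intro c x y z w h1 h2
    exact (pull A Q hA hQ c).mul (w := x) (x := y) (y := z) (z := w) h1 h2

/-- the restriction of a congruence to a subgroup -/
def res (P : Subgroup G) (c : Con G) : Con P where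
  r x y := c (x : G) (y : G)
  iseqv := ⟨fun _ => c.refl _, fun h => c.symm h, fun h1 h2 => c.trans h1 h2⟩
  mul' := fun h1 h2 => c.mul h1 h2

section
variable {ι : Type} (P : ι → Subgroup G) (B : ι → Type u) [∀ p, CommGroup (B p)]
  (π : ∀ p, B p → P p)
  (hπ : ∀ (p : ι) (c : Con (P p)) (x y z w : B p), c (π p x) (π p y) → c (π p z) (π p w) →
    c (π p (x * z)) (π p (y * w)))

/-- the pullback of a congruence to the product of the groups `B p` -/
def pullPi (c : Con G) : Con (∀ p, B p) where
  r u v := ∀ p, c (π p (u p) : G) (π p (v p) : G)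
  iseqv := ⟨fun _ _ => c.refl _, fun h p => c.symm (h p), fun h1 h2 p => c.trans (h1 p) (h2 p)⟩
  mul' := fun {x y z w} h1 h2 p => hπ p (res (P p) c) (x p) (y p) (z p) (w p) (h1 p) (h2 p)

end

theorem embed_syl [Finite G] (P : ∀ p : Nat.Primes, Sylow (p : ℕ) G)
    (B : Nat.Primes → Type u) [∀ p, CommGroup (B p)]
    (π : ∀ p, B p → (P p : Subgroup G)) (hs : ∀ p, Function.Surjective (π p))
    (hπ : ∀ (p : Nat.Primes) (c : Con (P p : Subgroup G)) (x y z w : B p),
      c (π p x) (π p y) → c (π p z) (π p w) → c (π p (x * z)) (π p (y * w))) :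
    ∃ f : LatticeHom (Con G) (Con (∀ p, B p)), Function.Injective f := by
  have hs' : ∀ p, ∀ g ∈ P p, ∃ u : B p, (π p u : G) = g := by
    intro p g hg
    obtain ⟨u, hu⟩ := hs p ⟨g, hg⟩
    exact ⟨u, congrArg Subtype.val hu⟩
  refine ⟨⟨⟨pullPi (fun p => (P p : Subgroup G)) B π hπ, ?_⟩, ?_⟩, ?_⟩
  · intro c d
    refine Con.ext fun u v => ?_
    constructor
    · intro h1
      rw [sup_iff]
      have h2 : ∀ p, ∃ w : B p, c (π p (u p) : G) (π p w : G) ∧ d (π p w : G) (π p (v p) : G) := by
        intro p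
        have : Fact (p : ℕ).Prime := ⟨p.2⟩
        have h3 : (c ⊔ d) (π p (u p) : G) (π p (v p) : G) := h1 p
        rw [rel_iff] at h3
        have hx : (π p (u p) : G) ∈ P p := (π p (u p)).2
        have hy : (π p (v p) : G) ∈ P p := (π p (v p)).2
        obtain ⟨n, hn, m, hm, hnP, hmP, e⟩ := syl_sup (P p) (nsub c) (nsub d) _
          (mul_mem (inv_mem hx) hy) (nsub_sup c d _ h3)
        obtain ⟨w, hw⟩ := hs' p ((π p (u p) : G) * n) (mul_mem hx hnP)
        refine ⟨w, ?_, ?_⟩
        · rw [hw, rel_iff, inv_mul_cancel_left]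
          exact hn
        · rw [hw, rel_iff]
          have e2 : ((π p (u p) : G) * n)⁻¹ * (π p (v p) : G) = m := by
            rw [mul_inv_rev, mul_assoc, ← e, inv_mul_cancel_left]
          rw [e2]
          exact hm
      choose w hw1 hw2 using h2
      exact ⟨w, fun p => hw1 p, fun p => hw2 p⟩
    · intro h1
      rw [sup_iff] at h1
      obtain ⟨w, h2, h3⟩ := h1
      intro p
      rw [sup_iff]
      exact ⟨_, h2 p, h3 p⟩
  · intro c d
    refine Con.ext fun u v => ?_
    rw [Con.inf_iff_and]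
    constructor
    · intro h1
      exact ⟨fun p => (Con.inf_iff_and.1 (h1 p)).1, fun p => (Con.inf_iff_and.1 (h1 p)).2⟩
    · rintro ⟨h1, h2⟩ p
      exact Con.inf_iff_and.2 ⟨h1 p, h2 p⟩
  · intro c d hcd
    have hcd' : pullPi (fun p => (P p : Subgroup G)) B π hπ c =
      pullPi (fun p => (P p : Subgroup G)) B π hπ d := hcd
    have h1 : nsub c = nsub d := by
      classical
      refine syl_inj P (nsub c) (nsub d) fun p x hx => ?_
      obtain ⟨w, hw⟩ := hs' p x hx
      obtain ⟨w1, hw1⟩ := hs' p 1 (one_mem _)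
      have key : ∀ e : Con G, pullPi (fun p => (P p : Subgroup G)) B π hπ e
          (Function.update 1 p w) (Function.update 1 p w1) ↔ e x 1 := by
        intro e
        constructor
        · intro h2
          have h3 := h2 p
          rw [Function.update_self, Function.update_self, hw, hw1] at h3
          exact h3
        · intro h2 q
          by_cases hq : q = p
          · subst hq
            rw [Function.update_self, Function.update_self, hw, hw1]
            exact h2
          · rw [Function.update_of_ne hq, Function.update_of_ne hq]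
            exact e.refl _
      rw [mem_nsub, mem_nsub, ← key c, ← key d, hcd']
    refine Con.ext fun x y => ?_
    rw [rel_iff, rel_iff, h1]

/-- **finite groups whose Sylow subgroups have the property `Abl`** -/
theorem embed_of_sylow (G : Type u) [Group G] [Finite G]
    (hS : ∀ (p : ℕ) [Fact p.Prime] (P : Sylow p G), Abl (P : Subgroup G)) :
    ∃ (B : Type u) (_ : CommGroup B) (f : LatticeHom (Con G) (Con B)), Function.Injective f := by
  have h1 : ∀ p : Nat.Primes, ∃ (P : Sylow (p : ℕ) G) (B : Type u) (_ : CommGroup B)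
      (π : B → (P : Subgroup G)), Function.Surjective π ∧
      ∀ (c : Con (P : Subgroup G)) (x y z w : B), c (π x) (π y) → c (π z) (π w) →
        c (π (x * z)) (π (y * w)) := by
    intro p
    have : Fact (p : ℕ).Prime := ⟨p.2⟩
    obtain ⟨P⟩ : Nonempty (Sylow (p : ℕ) G) := inferInstance
    exact ⟨P, hS p P⟩
  choose P B hB π hs hπ using h1
  obtain ⟨f, hf⟩ := embed_syl P B π hs hπ
  exact ⟨∀ p, B p, inferInstance, f, hf⟩

/-- a Sylow subgroup of order at most `p ^ 4` -/
theorem abl_of_fifth (G : Type u) [Group G] [Finite G] (p : ℕ) [hp : Fact p.Prime]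
    (P : Sylow p G) (h5 : ¬ p ^ 5 ∣ Nat.card G) : Abl (P : Subgroup G) := by
  obtain ⟨k, hk⟩ := (IsPGroup.iff_card (p := p) (G := P)).1 P.isPGroup'
  obtain ⟨A, Q, hA, hQ, h⟩ := p4 (P := (P : Subgroup G)) k (by
    by_contra hcon
    refine h5 ?_
    have h1 : p ^ 5 ∣ p ^ k := pow_dvd_pow p (by omega)
    rw [← hk] at h1
    exact h1.trans (Subgroup.card_subgroup_dvd_card (P : Subgroup G))) hk
  exact abl_of_prod A Q hA hQ h

end Pool.Agent.CGA
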