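import Mathlib

set_option autoImplicit false

/-!
# CGA / Baer (helper71)

Groups of class at most two whose commutators have odd exponent: every congruence of `G` is a
congruence of the abelian group with the operation `x y [x, y] ^ k`, `2 k + 1` the exponent (Baer).
-/

namespace Pool.Agent.CGA

universe u

open scoped commutatorElement

/-- `G` with another operation -/
def SynB (G : Type u) : Type u := G

theorem oddTwoB {G : Type u} [Group G]
    (hc : ∀ a b c : G, (a * b * a⁻¹ * b⁻¹) * c = c * (a * b * a⁻¹ * b⁻¹)) (k : ℕ)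
    (hk : ∀ a b : G, (a * b * a⁻¹ * b⁻¹) ^ (2 * k + 1) = 1) :
    ∃ (B : Type u) (_ : CommGroup B) (π : B → G), Function.Surjective π ∧
      ∀ (c : Con G) (x y z w : B), c (π x) (π y) → c (π z) (π w) →
        c (π (x * z)) (π (y * w)) := by
  -- the commutator
  obtain ⟨C, hC⟩ : ∃ C : G → G → G, ∀ a b, C a b = a * b * a⁻¹ * b⁻¹ :=
    ⟨fun a b => a * b * a⁻¹ * b⁻¹, fun a b => rfl⟩
  have hcc : ∀ a b g : G, Commute (C a b) g := fun a b g => by rw [hC]; exact hc a b g
  have hck : ∀ (a b g : G) (n : ℕ), (C a b) ^ n * g = g * (C a b) ^ n :=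
    fun a b g n => ((hcc a b g).pow_left n).eq
  have hk' : ∀ a b, C a b ^ (2 * k + 1) = 1 := fun a b => by rw [hC]; exact hk a b
  have hba : ∀ a b : G, b * a = (C a b)⁻¹ * (a * b) := fun a b => by rw [hC]; group
  have hinv : ∀ a b : G, C b a = (C a b)⁻¹ := fun a b => by rw [hC, hC]; group
  -- bilinearity
  have hl : ∀ a b d : G, C (a * b) d = C a d * C b d := by
    intro a b d
    have e1 : C (a * b) d = a * (C b d) * (d * a⁻¹ * d⁻¹) := by rw [hC, hC]; group
    rw [e1, ← (hcc b d a).eq]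
    have e2 : C b d * a * (d * a⁻¹ * d⁻¹) = C b d * C a d := by rw [hC a d]; group
    rw [e2, (hcc b d _).eq]
  have hr : ∀ a b d : G, C a (b * d) = C a b * C a d := by
    intro a b d
    rw [hinv (b * d) a, hl, mul_inv_rev, ← hinv, ← hinv, (hcc a d _).eq]
  have hCz : ∀ (a b g : G) (n : ℕ), C (C a b ^ n) g = 1 := by
    intro a b g n
    rw [hC, hck]
    group
  have hone : ∀ g : G, C 1 g = 1 := fun g => by rw [hC]; group
  have hone' : ∀ g : G, C g 1 = 1 := fun g => by rw [hC]; group
  obtain ⟨m, hm⟩ : ∃ m : G → G → G, ∀ a b, m a b = a * b * C a b ^ k :=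
    ⟨fun a b => a * b * C a b ^ k, fun a b => rfl⟩
  have hassoc : ∀ a b d : G, m (m a b) d = m a (m b d) := by
    intro a b d
    have e1 : C (a * b * C a b ^ k) d = C a d * C b d := by rw [hl, hCz, mul_one, hl]
    have e2 : C a (b * d * C b d ^ k) = C a b * C a d := by
      rw [hr, hinv (C b d ^ k) a, hCz, inv_one, mul_one, hr]
    rw [hm, hm, hm, hm, e1, e2, (hcc a d (C b d)).mul_pow, (hcc a b (C a d)).mul_pow]
    calc a * b * C a b ^ k * d * (C a d ^ k * C b d ^ k)
        = a * b * (C a b ^ k * d) * (C a d ^ k * C b d ^ k) := by simp only [mul_assoc]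
      _ = a * b * (d * C a b ^ k) * (C a d ^ k * C b d ^ k) := by rw [hck]
      _ = a * b * d * (C a b ^ k * C a d ^ k * C b d ^ k) := by simp only [mul_assoc]
      _ = a * b * d * (C b d ^ k * (C a b ^ k * C a d ^ k)) := by
          rw [← hck b d (C a b ^ k * C a d ^ k) k]
      _ = a * (b * d * C b d ^ k) * (C a b ^ k * C a d ^ k) := by simp only [mul_assoc]
  have hcomm : ∀ a b : G, m a b = m b a := by
    intro a b
    have e1 : C a b ^ k = (C a b)⁻¹ * (C b a) ^ k := by
      have e2 : C a b ^ k * C a b ^ (k + 1) = 1 := by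
        rw [← pow_add, ← hk' a b]
        congr 1
        ring
      have e3 : (C a b)⁻¹ * (C b a) ^ k = (C a b ^ (k + 1))⁻¹ := by
        rw [hinv a b, inv_pow, pow_succ, mul_inv_rev]
      rw [e3]
      exact eq_inv_of_mul_eq_one_left e2
    rw [hm, hm, hba a b, e1]
    calc a * b * ((C a b)⁻¹ * (C b a) ^ k) = (a * b * (C a b)⁻¹) * (C b a) ^ k := by
          simp only [mul_assoc]
      _ = ((C a b)⁻¹ * (a * b)) * (C b a) ^ k := by rw [((hcc a b (a * b)).inv_left).eq]
  have hm1 : ∀ a : G, m 1 a = a := fun a => by rw [hm, hone]; simp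
  have hminv : ∀ a : G, m a⁻¹ a = 1 := by
    intro a
    have e1 : C a⁻¹ a = 1 := by rw [hC]; group
    rw [hm, e1]
    simp
  let B : CommGroup (SynB G) :=
    { mul := m
      mul_assoc := hassoc
      one := (1 : G)
      one_mul := hm1
      mul_one := fun a => (hcomm a 1).trans (hm1 a)
      inv := fun a => show G from (show G from a)⁻¹
      inv_mul_cancel := hminv
      mul_comm := hcomm }
  refine ⟨SynB G, B, fun x => x, fun x => ⟨x, rfl⟩, ?_⟩
  intro c a a' b b' h h'
  show c (m a b) (m a' b')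
  rw [hm, hm, hC, hC]
  exact c.mul (c.mul h h') (c.pow k (c.mul (c.mul (c.mul h h') (c.inv h)) (c.inv h')))

theorem baer {p : ℕ} [Fact p.Prime] (hp : p ≠ 2) {P : Type u} [Group P] [Finite P]
    (hP : IsPGroup p P) (hc : ∀ x y z : P, ⁅⁅x, y⁆, z⁆ = 1) :
    ∃ (B : Type u) (_ : CommGroup B) (π : B → P), Function.Surjective π ∧
      ∀ (c : Con P) (x y z w : B), c (π x) (π y) → c (π z) (π w) →
        c (π (x * z)) (π (y * w)) := by
  obtain ⟨n, hn⟩ := IsPGroup.iff_card.1 hP
  have hodd : Odd (Nat.card P) := by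
    rw [hn]
    exact ((Fact.out : p.Prime).odd_of_ne_two hp).pow
  obtain ⟨k, hk⟩ := hodd
  refine oddTwoB (fun a b c => ?_) k (fun a b => ?_)
  · have h := hc a b c
    rw [commutatorElement_eq_one_iff_mul_comm, commutatorElement_def] at h
    exact h
  · rw [← hk]
    exact pow_card_eq_one'

end Pool.Agent.CGA
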