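import Mathlib

/-! CGA, module SylInj (helper77): a normal subgroup of a finite group is determined by its intersections with
one Sylow subgroup for each prime. -/

set_option autoImplicit false

namespace Pool.Agent.CGA

universe u

private theorem sylInj_le {G : Type u} [Group G] [Finite G] (P : ∀ p : Nat.Primes, Sylow (p : ℕ) G)
    (N M : Subgroup G) [N.Normal] [hM : M.Normal]
    (h : ∀ (p : Nat.Primes) (x : G), x ∈ P p → x ∈ N → x ∈ M) : N ≤ M := by
  intro g hg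
  by_contra hgM
  have h1 : orderOf (QuotientGroup.mk g : G ⧸ M) ≠ 1 := by
    intro h2
    rw [orderOf_eq_one_iff, QuotientGroup.eq_one_iff] at h2
    exact hgM h2
  obtain ⟨p, hp, hpd⟩ := Nat.exists_prime_and_dvd h1
  have : Fact p.Prime := ⟨hp⟩
  have hg0 : orderOf g ≠ 0 := (orderOf_pos g).ne'
  obtain ⟨a, m, hm, e⟩ := Nat.exists_eq_pow_mul_and_not_dvd hg0 p hp.ne_one
  have hy : (g ^ m) ^ p ^ a = 1 := by
    rw [← pow_mul, mul_comm, ← e, pow_orderOf_eq_one]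
  have hpg : IsPGroup p (Subgroup.zpowers (g ^ m)) := by
    intro z
    obtain ⟨k, hk⟩ := Subgroup.mem_zpowers_iff.1 z.2
    refine ⟨a, ?_⟩
    apply Subtype.ext
    show ((z : G)) ^ p ^ a = 1
    rw [← hk, ← zpow_natCast, ← zpow_mul, mul_comm, zpow_mul, zpow_natCast, hy, one_zpow]
  obtain ⟨Q, hQ⟩ := hpg.exists_le_sylow
  obtain ⟨c, hc⟩ := MulAction.exists_smul_eq G Q (P ⟨p, hp⟩)
  have hyQ : g ^ m ∈ Q := hQ (Subgroup.mem_zpowers _)
  have hcy : c * g ^ m * c⁻¹ ∈ P ⟨p, hp⟩ := by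
    rw [← hc]
    exact Subgroup.smul_mem_pointwise_smul (g ^ m) (MulAut.conj c) (Q : Subgroup G) hyQ
  have hN : N.Normal := inferInstance
  have h3 : c * g ^ m * c⁻¹ ∈ N := hN.conj_mem _ (N.pow_mem hg m) c
  have h4 : c * g ^ m * c⁻¹ ∈ M := h ⟨p, hp⟩ _ hcy h3
  have h5 : g ^ m ∈ M := by
    have h6 := hM.conj_mem _ h4 c⁻¹
    have h7 : c⁻¹ * (c * g ^ m * c⁻¹) * c⁻¹⁻¹ = g ^ m := by group
    rwa [h7] at h6
  have h6 : (QuotientGroup.mk g : G ⧸ M) ^ m = 1 := by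
    rw [← QuotientGroup.mk_pow, QuotientGroup.eq_one_iff]
    exact h5
  exact hm (hpd.trans (orderOf_dvd_of_pow_eq_one h6))

theorem syl_inj {G : Type u} [Group G] [Finite G] (P : ∀ p : Nat.Primes, Sylow (p : ℕ) G)
    (N M : Subgroup G) [N.Normal] [M.Normal]
    (h : ∀ (p : Nat.Primes) (x : G), x ∈ P p → (x ∈ N ↔ x ∈ M)) : N = M :=
  le_antisymm (sylInj_le P N M fun p x hx => (h p x hx).1) (sylInj_le P M N fun p x hx => (h p x hx).2)

end Pool.Agent.CGA
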