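import Mathlib

set_option autoImplicit false

/-!
# CGA / TwoGen

A group of class at most two that is generated by two elements is the product of two abelian
subgroups.
-/

namespace Pool.Agent.CGA

theorem twoGen {G : Type*} [Group G] (x y : G) (hgen : Subgroup.closure {x, y} = ⊤)
    (hc : ∀ a b c : G, (a * b * a⁻¹ * b⁻¹) * c = c * (a * b * a⁻¹ * b⁻¹)) :
    ∃ A Q : Subgroup G, (∀ a ∈ A, ∀ b ∈ A, a * b = b * a) ∧ (∀ a ∈ Q, ∀ b ∈ Q, a * b = b * a) ∧
      ∀ g : G, ∃ a ∈ A, ∃ q ∈ Q, a * q = g := by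
  obtain ⟨z, hz⟩ : ∃ z : G, z = x * y * x⁻¹ * y⁻¹ := ⟨_, rfl⟩
  have hzc : ∀ g : G, Commute z g := fun g => by rw [hz]; exact hc x y g
  have hzk : ∀ (k : ℤ) (g : G), z ^ k * g = g * z ^ k := fun k g => ((hzc g).zpow_left k).eq
  -- commutation of powers
  have h1 : x⁻¹ * y * x = z⁻¹ * y := by
    have e1 : z * (x⁻¹ * y * x) = y := by
      calc z * (x⁻¹ * y * x) = (z * x⁻¹) * (y * x) := by simp only [mul_assoc]
        _ = (x⁻¹ * z) * (y * x) := by rw [(hzc x⁻¹).eq]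
        _ = y := by rw [hz]; group
    rw [← e1, inv_mul_cancel_left, e1]
  have h2 : ∀ j : ℤ, x⁻¹ * y ^ j * x = z ^ (-j) * y ^ j := by
    intro j
    have e1 : (x⁻¹ * y * x⁻¹⁻¹) ^ j = x⁻¹ * y ^ j * x⁻¹⁻¹ := conj_zpow
    rw [inv_inv, h1] at e1
    rw [← e1, ((hzc y).inv_left).mul_zpow, inv_zpow, zpow_neg]
  have h3 : ∀ j : ℤ, y ^ j * x * (y ^ j)⁻¹ = z ^ (-j) * x := by
    intro j
    have e1 := h2 j
    have e2 : y ^ j * x = x * (z ^ (-j) * y ^ j) := by rw [← e1]; group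
    rw [e2, ← mul_assoc, ← hzk (-j) x, mul_assoc, mul_inv_cancel, mul_one]
  have h4 : ∀ j i : ℤ, y ^ j * x ^ i = z ^ (-j * i) * x ^ i * y ^ j := by
    intro j i
    have e1 : (y ^ j * x * (y ^ j)⁻¹) ^ i = y ^ j * x ^ i * (y ^ j)⁻¹ := conj_zpow
    rw [h3, ((hzc x).zpow_left (-j)).mul_zpow, ← zpow_mul] at e1
    rw [e1]
    group
  have hmul : ∀ i k j i' k' j' : ℤ, (x ^ i * z ^ k * y ^ j) * (x ^ i' * z ^ k' * y ^ j') =
      x ^ (i + i') * z ^ (k + (-j * i') + k') * y ^ (j + j') := by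
    intro i k j i' k' j'
    calc (x ^ i * z ^ k * y ^ j) * (x ^ i' * z ^ k' * y ^ j')
        = x ^ i * z ^ k * (y ^ j * x ^ i') * z ^ k' * y ^ j' := by simp only [mul_assoc]
      _ = x ^ i * z ^ k * (z ^ (-j * i') * x ^ i' * y ^ j) * z ^ k' * y ^ j' := by rw [h4]
      _ = x ^ i * (z ^ k * z ^ (-j * i') * x ^ i') * (y ^ j * z ^ k') * y ^ j' := by
          simp only [mul_assoc]
      _ = x ^ i * (x ^ i' * z ^ (k + (-j * i'))) * (z ^ k' * y ^ j) * y ^ j' := by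
          rw [← zpow_add, hzk (k + (-j * i')) (x ^ i'), hzk k' (y ^ j)]
      _ = x ^ (i + i') * z ^ (k + (-j * i') + k') * y ^ (j + j') := by
          rw [zpow_add x, zpow_add z (k + (-j * i')) k', zpow_add y]
          simp only [mul_assoc]
  let S : Subgroup G :=
    { carrier := {g | ∃ i k j : ℤ, g = x ^ i * z ^ k * y ^ j}
      one_mem' := ⟨0, 0, 0, by simp⟩
      mul_mem' := by
        rintro a b ⟨i, k, j, rfl⟩ ⟨i', k', j', rfl⟩
        exact ⟨_, _, _, hmul i k j i' k' j'⟩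
      inv_mem' := by
        rintro a ⟨i, k, j, rfl⟩
        refine ⟨-i, -k - j * i, -j, ?_⟩
        rw [inv_eq_iff_mul_eq_one, hmul]
        have e1 : i + -i = 0 := by ring
        have e2 : k + -j * -i + (-k - j * i) = 0 := by ring
        have e3 : j + -j = 0 := by ring
        rw [e1, e2, e3]
        simp }
  let A : Subgroup G :=
    { carrier := {g | ∃ i k : ℤ, g = x ^ i * z ^ k}
      one_mem' := ⟨0, 0, by simp⟩
      mul_mem' := by
        rintro a b ⟨i, k, rfl⟩ ⟨j, l, rfl⟩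
        refine ⟨i + j, k + l, ?_⟩
        calc x ^ i * z ^ k * (x ^ j * z ^ l) = x ^ i * (z ^ k * x ^ j) * z ^ l := by
              simp only [mul_assoc]
          _ = x ^ i * (x ^ j * z ^ k) * z ^ l := by rw [hzk]
          _ = x ^ (i + j) * z ^ (k + l) := by
              rw [zpow_add, zpow_add]
              simp only [mul_assoc]
      inv_mem' := by
        rintro a ⟨i, k, rfl⟩
        refine ⟨-i, -k, ?_⟩
        rw [mul_inv_rev, ← zpow_neg, ← zpow_neg, hzk] }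
  refine ⟨A, Subgroup.zpowers y, ?_, ?_, ?_⟩
  · rintro a ⟨i, k, rfl⟩ b ⟨j, l, rfl⟩
    have hxz : Commute x z := (hzc x).symm
    have e1 : Commute (x ^ i * z ^ k) (x ^ j * z ^ l) := by
      refine Commute.mul_left ?_ ?_
      · exact Commute.mul_right ((Commute.refl x).zpow_zpow i j) (hxz.zpow_zpow i l)
      · exact Commute.mul_right (hxz.symm.zpow_zpow k j) ((Commute.refl z).zpow_zpow k l)
    exact e1.eq
  · rintro a ⟨i, rfl⟩ b ⟨j, rfl⟩
    exact ((Commute.refl y).zpow_zpow i j).eq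
  · intro g
    have hle : Subgroup.closure {x, y} ≤ S := by
      rw [Subgroup.closure_le]
      rintro a (rfl | ha)
      · exact ⟨1, 0, 0, by simp⟩
      · rw [Set.mem_singleton_iff] at ha
        rw [ha]
        exact ⟨0, 0, 1, by simp⟩
    obtain ⟨i, k, j, hg⟩ : g ∈ S := hle (by rw [hgen]; exact Subgroup.mem_top g)
    exact ⟨x ^ i * z ^ k, ⟨i, k, rfl⟩, y ^ j, ⟨j, rfl⟩, hg.symm⟩

end Pool.Agent.CGA
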